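import Pool.Agent.H641.SEnd

/-!
# MP_98c5a3_lc: forcing the separation property for the analytic subsets of `κ ^ κ`

For every uncountable regular `κ` with `κ ^ (< κ) = κ`, in particular for every inaccessible `κ`,
there is a set forcing, closed under lower bounds of small directed sets and with the
`κ⁺`-chain condition, which forces that any two disjoint `Σ¹₁` subsets of `κ ^ κ` are separated by
a `Δ¹₁` set. No hypothesis such as `V = L` is used, and `κ` stays inaccessible if it was.

Conventions, as in the usual treatment of forcing:

* `Kap K`: the linear order `K` is a well-order whose order type is an uncountable regular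
  cardinal (`κ`, with `K = κ.ord.ToType`). `Nd K K` is the set `κ ^ (< κ)` of nodes.
* A sentence of the forcing language of `P` is the set of the conditions which force it; the
  connectives `fnot`, `fand`, `fall` have the usual forcing clauses and `fimp`, `foor`, `fex` are
  defined from them (`Force.lean`). A function of the extension from a set `X` to a set `Y` of the
  ground model is named by a map `X → Y → Set P`, a relation on `X` and `Y` also; `meets N` is the
  sentence that the generic filter meets `N`; `IsFun` says that the relation is a function.
* `PairIn R z w` (`Sig.lean`): all pairs of initial segments of the same length of the functions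
  named by `z` and `w` are in the relation named by `R`. The closed sets of pairs of functions are
  the sets defined in this way. `InProj R z`: the function named by `z` is in the projection of
  this closed set, that is, in the `Σ¹₁` set coded by `R`. There are no new nodes in the
  extension, because of `NoNew`.
* `Disj`, `Incl`, `Compl` (`SDefs.lean`): the sets coded by `R` and `R'` are disjoint; the first is included in
  the second; they are complements of each other. `Separation`: for all `R`, `R'`
  with `Disj R R'` there are `S`, `S'` with `Compl S S'`, `Incl R S` and `Disj S R'`.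
* `DirClo K P`: every directed subset of `P` with fewer than `κ` elements has a lower bound.
  `CCS K P`: every antichain of `P` has at most `κ` elements.
* `NoNew`, `StaysRegular`, `FewNodes`, `StaysStrongLimit`: in the extension there are no new
  sequences of length less than `κ`, `κ` is regular, `κ ^ (< κ) = κ`, and `κ` is a strong limit.
  `WeaklyCompact`: in the extension, `κ → (κ)²₂`.
-/

set_option linter.unusedSectionVars false

namespace Pool.Agent.Results.MP_98c5a3_lc.SeparationForced

open Cardinal Set Pool.Agent.H641

universe u

/-- In the extension by `P` there are no new sequences of length less than `K`, `K` is regular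
with `K ^ (< K) = K`, and disjoint analytic subsets of `K ^ K` are separated by bi-analytic sets. -/
def Goal (K : Type u) [LinearOrder K] [Kap K] (P : Type u) [Preorder P] : Set P :=
  fand (fall fun X : Type u => NoNew K P X) (fand (StaysRegular K P) (fand (FewNodes K P)
    (Separation K P)))

theorem kap {κ : Cardinal.{u}} (h : κ.IsRegular) (h' : ℵ₀ < κ) : Kap κ.ord.ToType where
  wf := inferInstance
  reg := by rwa [mk_ord_toType]
  small := fun a => by
    rw [mk_ord_toType]
    exact mk_Iio_toType_ord_lt a
  unc := by rwa [mk_ord_toType]

theorem big_self {K : Type u} [LinearOrder K] [Kap K] (h : #K ^< #K = #K) : Big K K where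
  le := le_rfl
  pow := fun a => by
    rw [mk_arrow, lift_id, lift_id]
    exact (le_powerlt _ (Kap.small a)).trans h.le

theorem result :
    (∀ κ : Cardinal.{u}, κ.IsInaccessible → Kap κ.ord.ToType ∧
      #κ.ord.ToType ^< #κ.ord.ToType = #κ.ord.ToType ∧
      ∀ b : κ.ord.ToType, #(Iio b → Bool) < #κ.ord.ToType) ∧
    ∀ (K : Type u) [LinearOrder K] [Kap K], #K ^< #K = #K →
      ∃ (P : Type u) (_ : Preorder P), DirClo K P ∧ CCS K P ∧
        (∀ p : P, p ∈ Goal K P) ∧
        ((∀ b : K, #(Iio b → Bool) < #K) → ∀ p : P, p ∈ StaysStrongLimit K P) ∧
        ((∀ (Q : Type u) [Preorder Q], DirClo K Q → ∀ q : Q, q ∈ WeaklyCompact K Q) →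
          ∀ p : P, p ∈ WeaklyCompact K P) := by
  refine ⟨fun κ h => ⟨kap h.isRegular h.aleph0_lt, ?_, fun b => ?_⟩, ?_⟩
  · rw [mk_ord_toType]
    exact powerlt_inaccessible h
  · have h1 : #(Iio b → Bool) = 2 ^ #(Iio b) := by simp
    rw [h1, mk_ord_toType]
    exact h.isStrongLimit.isStrongPrelimit (mk_Iio_toType_ord_lt b)
  · intro K _ _ h
    have hK := big_self h
    have hJ : #K < #(Set K) := by
      rw [mk_set]
      exact cantor _
    obtain ⟨dec, hdec⟩ : ∃ dec : K → Nd K K × Nd K K, Function.Surjective dec := by
      obtain ⟨g⟩ := (Cardinal.le_def _ _).1 (hK.prod hK.nd hK.nd)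
      have : Nonempty (Nd K K × Nd K K) := ⟨(Nd.root K K, Nd.root K K)⟩
      exact ⟨Function.invFun g, Function.invFun_surjective g.injective⟩
    obtain ⟨S, hS⟩ := exists_stg (J := Set K) (TU dec)
    obtain ⟨α₀, hα⟩ := hS.eventually
    have hA := hS.cl α₀
    have hW : #(K × Bool × Bool) ≤ #K := by
      have h1 : #(K × Bool × Bool) = #(K × (ULift.{u} Bool × ULift.{u} Bool)) :=
        mk_congr (Equiv.prodCongr (Equiv.refl _)
          (Equiv.prodCongr Equiv.ulift.symm Equiv.ulift.symm))
      rw [h1]
      have hB : #(ULift.{u} Bool) ≤ #K := (mk_le_aleph0_iff.2 inferInstance).trans mk_K_pos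
      exact hK.prod le_rfl (hK.prod hB hB)
    have hcl : Clo K (PS (S α₀)) := PS_clo hA
    refine ⟨PS (S α₀), inferInstance, PS_dirClo hA, PS_ccs hK hW hA, fun p => ?_, fun hsl p => ?_,
      fun hwc p => ?_⟩
    · exact ⟨fun X => hcl.noNew X p, hcl.staysRegular p, fewNodes_of_big hK p,
        separation hK hJ hdec hS hα p⟩
    · exact hcl.staysStrongLimit hsl p
    · exact hwc _ (PS_dirClo hA) p

end Pool.Agent.Results.MP_98c5a3_lc.SeparationForced
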